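import Pool.Agent.Lib.MP_b5021c_nt.IfaceK3

/-!
# GDE: the polynomials of the structure theorem belong to the class `DD` over the Eisenstein
integers
-/

namespace Pool.Agent.MP_b5021c_nt.H54

open Polynomial Filter Topology Pool.Agent.B5

noncomputable section

/-- The coordinatewise cast. -/
def cst' (ι : Type) : (ι → ℤ) →+ (ι → ℚ) where
  toFun a := fun i => (a i : ℚ)
  map_zero' := by funext i; simp
  map_add' a b := by funext i; simp

theorem span_le_card {ι : Type} [Fintype ι] (N : Submodule ℤ (ι → ℤ)) (T : Set (ι → ℚ))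
    (hT : Submodule.span ℚ T = ⊤) (h : ∀ v ∈ T, ∃ a ∈ N, cst' ι a = v) :
    Fintype.card ι ≤ Module.finrank ℤ N := by
  classical
  set b := Module.finBasis ℤ N with hb
  have hle : (⊤ : Submodule ℚ (ι → ℚ)) ≤
      Submodule.span ℚ (Set.range fun i => cst' ι (b i : ι → ℤ)) := by
    rw [← hT, Submodule.span_le]
    intro v hv
    obtain ⟨a, haN, rfl⟩ := h v hv
    have h1 : (⟨a, haN⟩ : N) = ∑ i, b.repr ⟨a, haN⟩ i • b i := (b.sum_repr _).symm
    have h2 : a = ∑ i, b.repr ⟨a, haN⟩ i • (b i : ι → ℤ) := by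
      have h3 := congrArg N.subtype h1
      rw [map_sum] at h3
      exact h3
    have h4 : cst' ι a = ∑ i, ((b.repr ⟨a, haN⟩ i : ℤ) : ℚ) • cst' ι (b i : ι → ℤ) := by
      conv_lhs => rw [h2]
      rw [map_sum]
      refine Finset.sum_congr rfl fun i _ => ?_
      rw [map_zsmul, Int.cast_smul_eq_zsmul]
    rw [h4]
    exact Submodule.sum_mem _ fun i _ => Submodule.smul_mem _ _ (Submodule.subset_span ⟨i, rfl⟩)
  have h5 : Submodule.span ℚ (Set.range fun i => cst' ι (b i : ι → ℤ)) = ⊤ := top_le_iff.mp hle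
  have h6 := finrank_range_le_card (R := ℚ) (b := fun i => cst' ι (b i : ι → ℤ))
  unfold Set.finrank at h6
  rw [h5, finrank_top, Module.finrank_fintype_fun_eq_card, Fintype.card_fin] at h6
  exact h6

theorem ind_empty {ι : Type} [DecidableEq ι] : ind (∅ : Finset ι) = 0 := by
  funext i; simp [ind]

theorem roots_filter (Q : ℤ[X]) (θ : ℝ) (h : OneZero Q θ) :
    (Q.map (Int.castRingHom ℂ)).roots.filter (fun w => ‖w‖ < 1) = {(((1 : ℝ) / θ : ℝ) : ℂ)} := by
  obtain ⟨h1, h0, g, hg, hz⟩ := h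
  have hθ : (θ : ℂ) ≠ 0 := by
    have : θ ≠ 0 := by linarith
    exact_mod_cast this
  have hQ : Q.map (Int.castRingHom ℂ) ≠ 0 := by
    intro h
    have h2 := congrArg (fun p : ℂ[X] => p.coeff 0) h
    simp [h0] at h2
  have hlin : (1 - C (θ : ℂ) * X : ℂ[X]) = C (-(θ : ℂ)) * (X - C ((θ : ℂ)⁻¹)) := by
    rw [mul_sub, ← C_mul, neg_mul, mul_inv_cancel₀ hθ, C_neg, C_neg, C_1]
    ring
  rw [hg] at hQ ⊢
  rw [roots_mul hQ, Multiset.filter_add, hlin, roots_C_mul _ (neg_ne_zero.mpr hθ), roots_X_sub_C]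
  have h3 : g.roots.filter (fun w => ‖w‖ < 1) = 0 := by
    rw [Multiset.filter_eq_nil]
    intro w hw hlt
    exact hz w hlt.le (isRoot_of_mem_roots hw)
  rw [h3, add_zero]
  have h4 : ‖((θ : ℂ)⁻¹)‖ < 1 := by
    rw [norm_inv, Complex.norm_real, Real.norm_of_nonneg (by linarith)]
    exact inv_lt_one_of_one_lt₀ h1
  have h5 : (((1 : ℝ) / θ : ℝ) : ℂ) = (θ : ℂ)⁻¹ := by
    push_cast; rw [one_div]
  rw [h5, Multiset.filter_singleton, if_pos h4]

theorem castE_inj {n : ℤ} (h : (Int.castRingHom Eis) n = 0) : n = 0 := by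
  have h1 := congrArg (Coef.emb : Eis →+* ℂ) h
  rw [map_zero, ← RingHom.comp_apply, RingHom.eq_intCast'
    ((Coef.emb : Eis →+* ℂ).comp (Int.castRingHom Eis))] at h1
  simpa using h1

theorem gde (ht : TceS) (hs : SteS) (hu : UneS) (hi : IreS) : GdeS := by
  intro ι _ _ _ D θ hD
  obtain ⟨hc, hsup⟩ := ht ι D
  refine ⟨⟨?_, ?_, hs ι D θ hD.free hD.one, hu ι D hD.uni, hi ι D θ hD, ?_⟩, ?_⟩
  · exact Function.injective_id
  · intro a ha i
    obtain ⟨S, rfl, _⟩ := hsup a ha
    change ind S i = 0 ∨ ind S i = 1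
    by_cases h : i ∈ S <;> simp [ind, h]
  · refine le_antisymm (Submodule.finrank_le _) ?_
    rw [Module.finrank_fintype_fun_eq_card]
    refine span_le_card _ _ hD.spn ?_
    rintro v ⟨S, hS, rfl⟩
    refine ⟨ind S, Submodule.subset_span ?_, ?_⟩
    · change (toE D).coeff (ind S) ≠ 0
      rw [hc S]
      intro h
      have h2 : (D S).map (Int.castRingHom Eis) = 0 :=
        Polynomial.toLaurent_injective (by rw [h, map_zero])
      have h3 := congrArg (fun p : Polynomial Eis => p.coeff 0) h2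
      simp only [Polynomial.coeff_map, Polynomial.coeff_zero] at h3
      exact hS (castE_inj h3)
    · funext i
      change ((ind S i : ℤ) : ℚ) = _
      by_cases h : i ∈ S <;> simp [ind, h]
  · have h0 : (toE D).coeff 0 = Polynomial.toLaurent ((D ∅).map (Int.castRingHom Eis)) := by
      rw [← hc ∅, ind_empty]
    refine ⟨hD.one.1, 0, (D ∅).map (Int.castRingHom Eis), ?_, ?_, (((1 : ℝ) / θ : ℝ) : ℂ),
      ?_, ?_⟩
    · rw [h0, LaurentPolynomial.T_zero, one_mul]
    · rw [Polynomial.coeff_map, hD.one.2.1]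
      simp
    · have h1 := hD.one.1
      rw [Complex.norm_real, Real.norm_of_nonneg (by positivity), one_div]
    · rw [Polynomial.map_map, RingHom.ext_int ((Coef.emb : Eis →+* ℂ).comp (Int.castRingHom Eis))
        (Int.castRingHom ℂ)]
      exact roots_filter _ _ hD.one

end

end Pool.Agent.MP_b5021c_nt.H54
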